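import Pool.Agent.Y599.SC.Rel

set_option autoImplicit false

namespace Pool.Agent.Y599.SC

open Pool.Agent.Helper227 Pool.Agent.Helper227.SOC

/-- all elements but the largest. -/
def lo (s : Finset ℕ) : Finset ℕ := s.filter fun x => ∃ y ∈ s, x < y

/-- all elements but the smallest. -/
def hi (s : Finset ℕ) : Finset ℕ := s.filter fun x => ∃ y ∈ s, y < x

theorem chain {L : Type} (R : L → L → Prop) (hrefl : ∀ a, R a a)
    (htrans : ∀ a b c, R a b → R b c → R a c) (F : Finset ℕ → L) (Y : Set ℕ) (n : ℕ)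
    (h : ∀ B : Finset ℕ, ↑B ⊆ Y → B.card = n + 1 → R (F (lo B)) (F (hi B))) :
    ∀ (r : ℕ) (u v w : Finset ℕ), u.card = r → ↑u ⊆ Y → ↑v ⊆ Y → ↑w ⊆ Y →
      (∀ a ∈ u, ∀ b ∈ v, a < b) → (∀ b ∈ v, ∀ c ∈ w, b < c) → (∀ a ∈ u, ∀ c ∈ w, a < c) →
      w.card = u.card → u.card + v.card = n → R (F (u ∪ v)) (F (v ∪ w)) := by
  intro r
  induction r with
  | zero =>
    intro u v w hu _ _ _ _ _ _ hw _
    rw [Finset.card_eq_zero] at hu
    subst hu
    rw [Finset.card_empty, Finset.card_eq_zero] at hw
    subst hw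
    simpa using hrefl _
  | succ r ih =>
    intro u v w hu hU hV hW huv hvw huw hw hn
    have hune : u.Nonempty := by
      rw [← Finset.card_pos]
      omega
    have hwne : w.Nonempty := by
      rw [← Finset.card_pos]
      omega
    obtain ⟨x, hx, hxm⟩ : ∃ x ∈ u, ∀ a ∈ u, x ≤ a :=
      ⟨u.min' hune, u.min'_mem hune, fun a ha => u.min'_le a ha⟩
    obtain ⟨y, hy, hym⟩ : ∃ y ∈ w, ∀ a ∈ w, y ≤ a :=
      ⟨w.min' hwne, w.min'_mem hwne, fun a ha => w.min'_le a ha⟩
    have hyu : y ∉ u := fun hyu => absurd (huw y hyu y hy) (lt_irrefl _)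
    have hyv : y ∉ v := fun hyv => absurd (hvw y hyv y hy) (lt_irrefl _)
    have hdisj : Disjoint u (insert y v) := by
      rw [Finset.disjoint_left]
      intro a ha hb
      rw [Finset.mem_insert] at hb
      rcases hb with rfl | hb
      · exact hyu ha
      · exact absurd (huv a ha a hb) (lt_irrefl _)
    have hB := h (u ∪ insert y v) (by
        rw [Finset.coe_union, Finset.coe_insert]
        exact Set.union_subset hU (Set.insert_subset (hW hy) hV)) (by
        rw [Finset.card_union_of_disjoint hdisj, Finset.card_insert_of_notMem hyv]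
        omega)
    have e1 : lo (u ∪ insert y v) = u ∪ v := by
      ext a
      simp only [lo, Finset.mem_filter, Finset.mem_union, Finset.mem_insert]
      constructor
      · rintro ⟨ha | rfl | ha, b, hb, hab⟩
        · exact Or.inl ha
        · exfalso
          rcases hb with hb | rfl | hb
          · have := huw b hb a hy
            omega
          · omega
          · have := hvw b hb a hy
            omega
        · exact Or.inr ha
      · rintro (ha | ha)
        · exact ⟨Or.inl ha, y, Or.inr (Or.inl rfl), huw a ha y hy⟩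
        · exact ⟨Or.inr (Or.inr ha), y, Or.inr (Or.inl rfl), hvw a ha y hy⟩
    have e2 : hi (u ∪ insert y v) = u.erase x ∪ insert y v := by
      ext a
      simp only [hi, Finset.mem_filter, Finset.mem_union, Finset.mem_insert, Finset.mem_erase]
      constructor
      · rintro ⟨ha | rfl | ha, b, hb, hab⟩
        · refine Or.inl ⟨?_, ha⟩
          rintro rfl
          rcases hb with hb | rfl | hb
          · have := hxm b hb
            omega
          · have := huw a ha b hy
            omega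
          · have := huv a ha b hb
            omega
        · exact Or.inr (Or.inl rfl)
        · exact Or.inr (Or.inr ha)
      · rintro (⟨ha1, ha⟩ | rfl | ha)
        · exact ⟨Or.inl ha, x, Or.inl hx, lt_of_le_of_ne (hxm a ha) (Ne.symm ha1)⟩
        · exact ⟨Or.inr (Or.inl rfl), x, Or.inl hx, huw x hx a hy⟩
        · exact ⟨Or.inr (Or.inr ha), x, Or.inl hx, huv x hx a ha⟩
    have e3 : insert y v ∪ w.erase y = v ∪ w := by
      ext a
      simp only [Finset.mem_union, Finset.mem_insert, Finset.mem_erase]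
      constructor
      · rintro ((rfl | ha) | ⟨_, ha⟩)
        · exact Or.inr hy
        · exact Or.inl ha
        · exact Or.inr ha
      · rintro (ha | ha)
        · exact Or.inl (Or.inr ha)
        · by_cases hay : a = y
          · exact Or.inl (Or.inl hay)
          · exact Or.inr ⟨hay, ha⟩
    rw [e1, e2] at hB
    have hc1 : (u.erase x).card = r := by
      rw [Finset.card_erase_of_mem hx]
      omega
    have hc2 : (w.erase y).card = (u.erase x).card := by
      rw [Finset.card_erase_of_mem hx, Finset.card_erase_of_mem hy]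
      omega
    have hc3 : (u.erase x).card + (insert y v).card = n := by
      rw [Finset.card_erase_of_mem hx, Finset.card_insert_of_notMem hyv]
      omega
    have := ih (u.erase x) (insert y v) (w.erase y) hc1
      (fun a ha => hU (Finset.mem_of_mem_erase (Finset.mem_coe.1 ha)))
      (by
        rw [Finset.coe_insert]
        exact Set.insert_subset (hW hy) hV)
      (fun a ha => hW (Finset.mem_of_mem_erase (Finset.mem_coe.1 ha)))
      (by
        intro a ha b hb
        rw [Finset.mem_insert] at hb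
        have ha' := Finset.mem_of_mem_erase ha
        rcases hb with rfl | hb
        · exact huw a ha' b hy
        · exact huv a ha' b hb)
      (by
        intro b hb c hc
        rw [Finset.mem_insert] at hb
        rw [Finset.mem_erase] at hc
        rcases hb with rfl | hb
        · exact lt_of_le_of_ne (hym c hc.2) (Ne.symm hc.1)
        · exact hvw b hb c hc.2)
      (fun a ha c hc => huw a (Finset.mem_of_mem_erase ha) c (Finset.mem_of_mem_erase hc))
      hc2 hc3
    rw [e3] at this
    exact htrans _ _ _ hB this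

theorem conv (ρ : ℕ → ℕ → Prop)
    (hρ : ∀ (b : ℕ) (S : Set ℕ), S.Nonempty → (∀ x ∈ S, x ≤ b) → ∃ m ∈ S, ∀ x ∈ S, ρ m x → x = m)
    (F : Finset ℕ → ℕ → ℕ) (hF : ∀ s i, F s i ≤ i) (Y : Set ℕ) (hY : Y.Infinite) (n : ℕ)
    (H : ∀ s s' : Finset ℕ, ↑s ⊆ Y → ↑s' ⊆ Y → s.card = n → s'.card = n →
      (∀ a ∈ s, ∀ b ∈ s', a < b) → ∀ i, (∀ j < i, F s j = F s' j) → ρ (F s i) (F s' i)) :
    ∀ i, ∃ p, ∃ v : ℕ → ℕ, ∀ j < i, ∀ s : Finset ℕ, ↑s ⊆ Y → s.card = n → (∀ x ∈ s, p ≤ x) →
      F s j = v j := by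
  intro i
  induction i with
  | zero => exact ⟨0, fun _ => 0, fun j hj => absurd hj (Nat.not_lt_zero _)⟩
  | succ i ih =>
    obtain ⟨p, v, hp⟩ := ih
    let S : Set ℕ := {a | ∃ s : Finset ℕ, ↑s ⊆ Y ∧ s.card = n ∧ (∀ x ∈ s, p ≤ x) ∧ F s i = a}
    have hinf : (Y \ Set.Iio p).Infinite := hY.diff (Set.finite_Iio p)
    obtain ⟨s0, hs0, hs0c⟩ := hinf.exists_subset_card_eq n
    have hSne : S.Nonempty :=
      ⟨F s0 i, s0, fun x hx => (hs0 hx).1, hs0c, fun x hx => not_lt.1 (hs0 (Finset.mem_coe.2 hx)).2, rfl⟩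
    obtain ⟨m, ⟨s, hs1, hs2, hs3, hs4⟩, hm⟩ := hρ i S hSne (by
      rintro x ⟨s, -, -, -, rfl⟩
      exact hF s i)
    refine ⟨max p (s.sup id + 1), fun j => if j = i then m else v j, fun j hj s' h1 h2 h3 => ?_⟩
    have h3' : ∀ x ∈ s', p ≤ x := fun x hx => (le_max_left _ _).trans (h3 x hx)
    by_cases hji : j = i
    · subst hji
      show F s' j = if j = j then m else v j
      rw [if_pos rfl]
      refine hm _ ⟨s', h1, h2, h3', rfl⟩ ?_
      rw [← hs4]
      refine H s s' hs1 h1 hs2 h2 ?_ j ?_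
      · intro a ha b hb
        have a1 : a ≤ s.sup id := Finset.le_sup (f := id) ha
        have a2 := (le_max_right _ _).trans (h3 b hb)
        omega
      · intro l hl
        rw [hp l hl s hs1 hs2 hs3, hp l hl s' h1 h2 h3']
    · show F s' j = if j = i then m else v j
      rw [if_neg hji]
      exact hp j (by omega) s' h1 h2 h3'

theorem lex_le {f g : ℕ → ℕ} (h : toLex f ≤ toLex g) (i : ℕ) (hi : ∀ j < i, f j = g j) : f i ≤ g i := by
  by_contra hcon
  push Not at hcon
  have h1 : toLex g < toLex f := ⟨i, fun j hj => (hi j hj).symm, hcon⟩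
  exact absurd h (not_le.2 h1)

/-- the colouring of `(n+1)`-sets which compares sequences lexicographically. -/
noncomputable def lexcol (F : Finset ℕ → ℕ → ℕ) (s : Finset ℕ) : Fin 2 :=
  open Classical in if toLex (F (lo s)) ≤ toLex (F (hi s)) then 0 else 1

/-- every infinite homogeneous set of the lexicographic colouring is, up to finitely many elements,
homogeneous for all coordinates. -/
theorem lexcol_conv (F : Finset ℕ → ℕ → ℕ) (hF : ∀ s i, F s i ≤ i) (Y : Set ℕ) (hY : Y.Infinite)
    (n : ℕ) (col : Fin 2) (h : ∀ s : Finset ℕ, ↑s ⊆ Y → s.card = n + 1 → lexcol F s = col) (i : ℕ) :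
    ∃ p v, ∀ s : Finset ℕ, ↑s ⊆ Y → s.card = n → (∀ x ∈ s, p ≤ x) → F s i = v := by
  classical
  by_cases hc : col = 0
  · subst hc
    have h1 : ∀ B : Finset ℕ, ↑B ⊆ Y → B.card = n + 1 → toLex (F (lo B)) ≤ toLex (F (hi B)) := by
      intro B hB hBc
      by_contra hcon
      have := h B hB hBc
      unfold lexcol at this
      rw [if_neg hcon] at this
      exact absurd this (by decide)
    have h2 := chain (fun f g : ℕ → ℕ => toLex f ≤ toLex g) (fun _ => le_rfl)
      (fun _ _ _ a b => a.trans b) F Y n h1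
    obtain ⟨p, v, hp⟩ := conv (· ≤ ·) (by
      intro b S hS hb
      obtain ⟨m, hm1, hm2⟩ := ((Set.finite_Iic b).subset hb).exists_maximal hS
      exact ⟨m, hm1, fun x hx hmx => le_antisymm (hm2 hx hmx) hmx⟩) F hF Y hY n (by
      intro s s' hs hs' hc hc' hlt i hi
      have := h2 n s ∅ s' hc hs (by simp) hs' (by simp) (by simp) hlt (by omega) (by simpa using hc)
      rw [Finset.union_empty, Finset.empty_union] at this
      exact lex_le this i hi) (i + 1)
    exact ⟨p, v i, hp i (by omega)⟩
  · have h1 : ∀ B : Finset ℕ, ↑B ⊆ Y → B.card = n + 1 → toLex (F (hi B)) ≤ toLex (F (lo B)) := by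
      intro B hB hBc
      by_contra hcon
      have := h B hB hBc
      unfold lexcol at this
      rw [if_pos (le_of_lt (not_le.1 hcon))] at this
      exact hc this.symm
    have h2 := chain (fun f g : ℕ → ℕ => toLex g ≤ toLex f) (fun _ => le_rfl)
      (fun _ _ _ a b => b.trans a) F Y n h1
    obtain ⟨p, v, hp⟩ := conv (fun a b => b ≤ a) (by
      intro b S hS hb
      obtain ⟨m, hm1, hm2⟩ := ((Set.finite_Iic b).subset hb).exists_minimal hS
      exact ⟨m, hm1, fun x hx hmx => le_antisymm hmx (hm2 hx hmx)⟩) F hF Y hY n (by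
      intro s s' hs hs' hc hc' hlt i hi
      have := h2 n s ∅ s' hc hs (by simp) hs' (by simp) (by simp) hlt (by omega) (by simpa using hc)
      rw [Finset.union_empty, Finset.empty_union] at this
      exact lex_le this i fun j hj => (hi j hj).symm) (i + 1)
    exact ⟨p, v i, hp i (by omega)⟩

theorem rec_ge {O : Set (ℕ →. ℕ)} (Y : ℕ → Bool) (p : ℕ) (h : Nat.RecursiveIn O (chi Y)) :
    Nat.RecursiveIn O (chi fun x => Y x && decide (p ≤ x)) := by
  have hid : Nat.RecursiveIn O (fun n : ℕ => ((n : ℕ) : Part ℕ)) :=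
    (Primrec.nat_iff.1 Primrec.id).recursiveIn
  have hg : Primrec (fun m : ℕ => if p ≤ m.unpair.2 then m.unpair.1 else 0) :=
    Primrec.ite (Primrec.nat_le.comp (Primrec.const p) (Primrec.snd.comp Primrec.unpair))
      (Primrec.fst.comp Primrec.unpair) (Primrec.const 0)
  have hg' : Nat.RecursiveIn O
      (fun m : ℕ => ((if p ≤ m.unpair.2 then m.unpair.1 else 0 : ℕ) : Part ℕ)) :=
    (Primrec.nat_iff.1 hg).recursiveIn
  have h1 := Nat.RecursiveIn.comp hg' (Nat.RecursiveIn.pair h hid)
  refine h1.of_eq fun n => ?_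
  have e1 : (Nat.pair <$> chi Y n <*> ((n : ℕ) : Part ℕ)) = Part.some (Nat.pair (Y n).toNat n) := by
    unfold chi
    simp [Seq.seq]
  rw [e1]
  change Part.bind (Part.some _) _ = _
  rw [Part.bind_some]
  simp only [Nat.unpair_pair]
  unfold chi
  by_cases hp : p ≤ n
  · rw [if_pos hp]
    simp [hp]
  · rw [if_neg hp]
    simp [hp]

theorem rec_join {O : Set (ℕ →. ℕ)} (Y Z : ℕ → Bool) (hY : Nat.RecursiveIn O (chi Y))
    (hZ : Nat.RecursiveIn O (chi Z)) : Nat.RecursiveIn O (chi (jn Y Z)) := by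
  have hhalf : Nat.RecursiveIn O (fun n : ℕ => ((n / 2 : ℕ) : Part ℕ)) :=
    (Primrec.nat_iff.1 (Primrec.nat_div.comp Primrec.id (Primrec.const 2))).recursiveIn
  have hid : Nat.RecursiveIn O (fun n : ℕ => ((n : ℕ) : Part ℕ)) :=
    (Primrec.nat_iff.1 Primrec.id).recursiveIn
  have hY2 := Nat.RecursiveIn.comp hY hhalf
  have hZ2 := Nat.RecursiveIn.comp hZ hhalf
  have hg : Primrec (fun m : ℕ => if m.unpair.1 % 2 = 0 then m.unpair.2.unpair.1 else m.unpair.2.unpair.2) :=
    Primrec.ite (Primrec.eq.comp (Primrec.nat_mod.comp (Primrec.fst.comp Primrec.unpair)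
      (Primrec.const 2)) (Primrec.const 0))
      (Primrec.fst.comp (Primrec.unpair.comp (Primrec.snd.comp Primrec.unpair)))
      (Primrec.snd.comp (Primrec.unpair.comp (Primrec.snd.comp Primrec.unpair)))
  have hg' : Nat.RecursiveIn O (fun m : ℕ => ((if m.unpair.1 % 2 = 0 then m.unpair.2.unpair.1
      else m.unpair.2.unpair.2 : ℕ) : Part ℕ)) :=
    (Primrec.nat_iff.1 hg).recursiveIn
  have h1 := Nat.RecursiveIn.comp hg' (Nat.RecursiveIn.pair hid (Nat.RecursiveIn.pair hY2 hZ2))
  refine h1.of_eq fun n => ?_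
  have e1 : ((((n / 2 : ℕ) : Part ℕ)) >>= chi Y) = Part.some (Y (n / 2)).toNat := by
    change Part.bind (Part.some _) _ = _
    rw [Part.bind_some]
    rfl
  have e2 : ((((n / 2 : ℕ) : Part ℕ)) >>= chi Z) = Part.some (Z (n / 2)).toNat := by
    change Part.bind (Part.some _) _ = _
    rw [Part.bind_some]
    rfl
  rw [e1, e2]
  have e3 : (Nat.pair <$> ((n : ℕ) : Part ℕ) <*> (Nat.pair <$> (Part.some (Y (n / 2)).toNat) <*>
      Part.some (Z (n / 2)).toNat)) =
      Part.some (Nat.pair n (Nat.pair (Y (n / 2)).toNat (Z (n / 2)).toNat)) := by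
    simp [Seq.seq]
  rw [e3]
  change Part.bind (Part.some _) _ = _
  rw [Part.bind_some]
  simp only [Nat.unpair_pair]
  unfold chi jn
  by_cases hp : n % 2 = 0
  · rw [if_pos hp, if_pos hp]
    rfl
  · rw [if_neg hp, if_neg hp]
    rfl

end Pool.Agent.Y599.SC
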