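import Pool.Agent.Helper227.SOC.Comp

set_option autoImplicit false
open Filter Encodable

namespace Pool.Agent.Y599.SC

open Pool.Agent.Helper227 Pool.Agent.Helper227.SOC
open Nat.Partrec (Code)

/-- the join of two sets of natural numbers. -/
def jn (H Z : ℕ → Bool) (x : ℕ) : Bool := if x % 2 = 0 then H (x / 2) else Z (x / 2)

theorem jn_left (H Z : ℕ → Bool) (x : ℕ) : jn H Z (2 * x) = H x := by
  unfold jn
  rw [if_pos (by omega)]
  congr 1
  omega

theorem jn_right (H Z : ℕ → Bool) (x : ℕ) : jn H Z (2 * x + 1) = Z x := by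
  unfold jn
  rw [if_neg (by omega)]
  congr 1
  omega

theorem rec_left (H Z : ℕ → Bool) : Nat.RecursiveIn {chi (jn H Z)} (chi H) := by
  have h1 : Primrec (fun n : ℕ => 2 * n) := Primrec.nat_mul.comp (Primrec.const 2) Primrec.id
  have h2 : Nat.RecursiveIn {chi (jn H Z)} (fun n => ((2 * n : ℕ) : Part ℕ)) :=
    (Primrec.nat_iff.1 h1).recursiveIn
  have h3 := Nat.RecursiveIn.comp (Nat.RecursiveIn.oracle (chi (jn H Z)) (Set.mem_singleton _)) h2
  refine h3.of_eq fun n => ?_
  change (Part.some (2 * n)).bind (chi (jn H Z)) = _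
  rw [Part.bind_some]
  unfold chi
  rw [jn_left]

theorem rec_right (H Z : ℕ → Bool) : Nat.RecursiveIn {chi (jn H Z)} (chi Z) := by
  have h1 : Primrec (fun n : ℕ => 2 * n + 1) :=
    Primrec.succ.comp (Primrec.nat_mul.comp (Primrec.const 2) Primrec.id)
  have h2 : Nat.RecursiveIn {chi (jn H Z)} (fun n => ((2 * n + 1 : ℕ) : Part ℕ)) :=
    (Primrec.nat_iff.1 h1).recursiveIn
  have h3 := Nat.RecursiveIn.comp (Nat.RecursiveIn.oracle (chi (jn H Z)) (Set.mem_singleton _)) h2
  refine h3.of_eq fun n => ?_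
  change (Part.some (2 * n + 1)).bind (chi (jn H Z)) = _
  rw [Part.bind_some]
  unfold chi
  rw [jn_right]

theorem rec_jn {H Z : ℕ → Bool} {f : ℕ →. ℕ} (hf : Nat.RecursiveIn {chi H, chi Z} f) :
    Nat.RecursiveIn {chi (jn H Z)} f := by
  refine hf.subst fun g hg => ?_
  rcases hg with rfl | hg
  · exact rec_left H Z
  · rw [Set.mem_singleton_iff] at hg
    subst hg
    exact rec_right H Z

/-- the operator given by a code and an oracle: all elements output by all end-extensions. -/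
def GamZ (p : Code × (ℕ → Bool)) (F : Finset ℕ) : Set ℕ :=
  {b | ∀ H : ℕ → Bool, EE F H → ∃ s r, stp3 p.1 r (pre (jn H p.2) s, b, 1)}

theorem GamZ_mono (p : Code × (ℕ → Bool)) (F F' : Finset ℕ) (h : Ext F F') : GamZ p F ⊆ GamZ p F' := by
  intro b hb H hH
  refine hb H ⟨fun x hx => hH.1 x (h.1 hx), fun x hx hxF z hz => ?_⟩
  by_cases hx' : x ∈ F'
  · exact h.2 x hx' hxF z hz
  · exact hH.2 x hx hx' z (h.1 hz)

theorem comp_rel (𝒵 : Set (ℕ → Bool)) (h𝒵 : 𝒵.Countable) (m0 k : ℕ) :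
    ∃ c0 : Finset ℕ → Fin (k + 1), ∀ d : Finset ℕ → Fin k,
    ∃ H : ℕ → Bool, {x | H x = true}.Infinite ∧
      (∃ j, ∀ X : Finset ℕ, (∀ x ∈ X, H x = true) → X.card = m0 + 1 → d X = j) ∧
      ∀ Z ∈ 𝒵, ∀ Y : ℕ → Bool, Nat.RecursiveIn {chi H, chi Z} (chi Y) → {x | Y x = true}.Infinite →
        ¬ ∃ col, ∀ B : Finset ℕ, (∀ x ∈ B, Y x = true) → B.card = m0 + 1 → c0 B = col := by
  classical
  haveI : Countable 𝒵 := h𝒵.to_subtype
  haveI : Countable Code := Encodable.countable
  let Γ : Code × 𝒵 → Finset ℕ → Set ℕ := fun p => GamZ (p.1, p.2.1)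
  obtain ⟨c0, hc0⟩ := comb Γ (fun p => GamZ_mono (p.1, p.2.1)) m0 k
  refine ⟨c0, fun d => ?_⟩
  obtain ⟨F, j, hF1, hF2, hF3, hF4⟩ := hc0 d
  have hext : ∀ t t', t ≤ t' → Ext (F t) (F t') := by
    intro t t' htt
    induction t', htt using Nat.le_induction with
    | base => exact Ext.refl _
    | succ t' _ ih => exact ih.trans (hF1 t')
  let H : ℕ → Bool := fun x => decide (∃ t, x ∈ F t)
  have hH : ∀ x, H x = true ↔ ∃ t, x ∈ F t := fun x => decide_eq_true_iff
  have hEE : ∀ t, EE (F t) H := by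
    intro t
    refine ⟨fun x hx => (hH x).2 ⟨t, hx⟩, fun x hx hxF z hz => ?_⟩
    obtain ⟨t', ht'⟩ := (hH x).1 hx
    exact (hext t (max t t') (le_max_left _ _)).2 x ((hext t' _ (le_max_right _ _)).1 ht') hxF z hz
  have hfin : ∀ X : Finset ℕ, (∀ x ∈ X, H x = true) → ∃ t, X ⊆ F t := by
    intro X
    induction X using Finset.induction_on with
    | empty => exact fun _ => ⟨0, Finset.empty_subset _⟩
    | insert a X _ ih =>
      intro h
      obtain ⟨t, ht⟩ := ih fun x hx => h x (Finset.mem_insert_of_mem hx)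
      obtain ⟨t', ht'⟩ := (hH a).1 (h a (Finset.mem_insert_self _ _))
      refine ⟨max t t', Finset.insert_subset ((hext t' _ (le_max_right _ _)).1 ht')
        (ht.trans (hext t _ (le_max_left _ _)).1)⟩
  have hbig : ∀ s, ∃ t, ∃ z ∈ F t, s ≤ z := by
    intro s
    obtain ⟨t, ht⟩ := hF2 (s + 1)
    refine ⟨t, ?_⟩
    by_contra hcon
    push Not at hcon
    have : F t ⊆ Finset.range s := fun z hz => Finset.mem_range.2 (hcon z hz)
    have := Finset.card_le_card this
    rw [Finset.card_range] at this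
    omega
  refine ⟨H, ?_, ⟨j, ?_⟩, ?_⟩
  · intro hfinite
    obtain ⟨t, ht⟩ := hF2 (hfinite.toFinset.card + 1)
    have : F t ⊆ hfinite.toFinset := fun x hx => hfinite.mem_toFinset.2 ((hH x).2 ⟨t, hx⟩)
    have := Finset.card_le_card this
    omega
  · intro X hX hc
    obtain ⟨t, ht⟩ := hfin X hX
    exact hF3 t X ht hc
  · rintro Z hZ Y hY hYinf ⟨col, hcol⟩
    obtain ⟨G, hG, mG, eG⟩ := recIn_graph (rec_jn hY)
    obtain ⟨c, hc⟩ := exists_code3 hG
    have hYm : ∀ b, Y b = true ↔ ∃ s r, stp3 c r (pre (jn H Z) s, b, 1) := by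
      intro b
      have h1 : (1 : ℕ) ∈ chi Y b ↔ ∃ s, G (pre (jn H Z) s, b, 1) := eG b 1
      have h2 : (1 : ℕ) ∈ chi Y b ↔ Y b = true := by
        unfold chi
        rw [Part.mem_some_iff]
        cases Y b <;> simp
      rw [← h2, h1]
      exact exists_congr fun s => hc _
    have h1 : ∀ b, Y b = true → ∃ t, b ∈ Γ (c, ⟨Z, hZ⟩) (F t) := by
      intro b hb
      obtain ⟨s, r, hs⟩ := (hYm b).1 hb
      obtain ⟨t, z, hz, hsz⟩ := hbig s
      refine ⟨t, fun H' hH' => ⟨s, r, ?_⟩⟩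
      have hHH : ∀ x, x < s → H' x = H x := by
        intro x hxs
        by_cases hxF : x ∈ F t
        · rw [hH'.1 x hxF, (hEE t).1 x hxF]
        · have a1 : H' x ≠ true := fun h => by
            have := hH'.2 x h hxF z hz
            omega
          have a2 : H x ≠ true := fun h => by
            have := (hEE t).2 x h hxF z hz
            omega
          rw [Bool.eq_false_iff.2 a1, Bool.eq_false_iff.2 a2]
      have hpre : pre (jn H' Z) s = pre (jn H Z) s := by
        unfold pre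
        refine List.map_congr_left fun x hx => ?_
        have hxs := List.mem_range.1 hx
        unfold jn
        by_cases he : x % 2 = 0
        · rw [if_pos he, if_pos he]
          exact hHH _ (by omega)
        · rw [if_neg he, if_neg he]
      change stp3 c r (pre (jn H' Z) s, b, 1)
      rw [hpre]
      exact hs
    have h2 : ∀ t, ∀ b ∈ Γ (c, ⟨Z, hZ⟩) (F t), Y b = true := by
      intro t b hb
      exact (hYm b).2 (hb H (hEE t))
    rcases hF4 (c, ⟨Z, hZ⟩) col with ⟨v, hv⟩ | ⟨t, B, hB1, hB2, hB3⟩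
    · apply hYinf
      refine (Set.finite_Iic v).subset fun b hb => ?_
      obtain ⟨t, ht⟩ := h1 b hb
      exact hv t b ht
    · exact hB3 (hcol B (fun x hx => h2 t x (hB2 x hx)) hB1)

end Pool.Agent.Y599.SC
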